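import Pool.Agent.Y690.PP.Stm2
import Pool.Agent.Y678.PP.Bas
import Pool.Agent.Y427.PP.Fac

/-!
# Project PP, part 2: counting the even squarefree Gaussian integers
-/

set_option autoImplicit false

open Finset

namespace Pool.Agent.Y100.PP

open Pool.Agent.Y690.PP Pool.Agent.Y690.PP.Fn

/-- the four units -/
def U : Fin 4 → G := ![1, -1, ⟨0, 1⟩, ⟨0, -1⟩]

theorem U_inj : Function.Injective U := by
  intro i j h
  fin_cases i <;> fin_cases j <;> first | rfl | (exfalso; revert h; decide)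

theorem U_unit (i : Fin 4) : IsUnit (U i) := by
  fin_cases i
  · exact isUnit_one
  · exact isUnit_one.neg
  · exact IsUnit.of_mul_eq_one ⟨0, -1⟩ (by decide)
  · exact IsUnit.of_mul_eq_one ⟨0, 1⟩ (by decide)

theorem nm_U (i : Fin 4) : nm (U i) = 1 := by
  fin_cases i <;> decide

theorem nm_la : nm la = 2 := by decide

theorem unit_eq (u : G) (hu : IsUnit u) : ∃ i, u = U i := by
  have h1 : u.norm.natAbs = 1 := Zsqrtd.norm_eq_one_iff.mpr hu
  have h2 : u.re ^ 2 + u.im ^ 2 = 1 := by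
    have h3 : (0 : ℤ) ≤ u.norm := GaussianInt.norm_nonneg u
    have h4 : u.norm = 1 := by omega
    rw [Zsqrtd.norm_def] at h4
    linarith
  have hr : u.re ^ 2 ≤ 1 := by nlinarith [sq_nonneg u.im]
  have hi : u.im ^ 2 ≤ 1 := by nlinarith [sq_nonneg u.re]
  have hr1 : -1 ≤ u.re ∧ u.re ≤ 1 := abs_le.mp ((sq_le_one_iff_abs_le_one _).mp hr)
  have hi1 : -1 ≤ u.im ∧ u.im ≤ 1 := abs_le.mp ((sq_le_one_iff_abs_le_one _).mp hi)
  obtain ⟨x, y⟩ := u
  simp only at h2 hr1 hi1
  obtain ⟨a1, a2⟩ := hr1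
  obtain ⟨b1, b2⟩ := hi1
  interval_cases x <;> interval_cases y <;> first | omega | skip
  · exact ⟨1, by decide⟩
  · exact ⟨3, by decide⟩
  · exact ⟨2, by decide⟩
  · exact ⟨0, by decide⟩

/-- conjugation of primes -/
def cj (p : Pr) : Pr := ⟨star p.1, by
  obtain ⟨h1, h2⟩ := p.2
  refine ⟨?_, ?_⟩
  · exact (MulEquiv.prime_iff (starRingAut : G ≃+* G)).mpr h1
  · obtain ⟨z, hz⟩ := h2
    refine ⟨⟨0, -1⟩ * star z, ?_⟩
    have h3 : star p.1 - 1 = star (p.1 - 1) := by rw [star_sub, star_one]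
    rw [h3, hz, star_mul, mul_comm, ← mul_assoc]
    congr 1⟩

theorem cj_inj : Function.Injective cj := by
  intro p q h
  have h1 : star p.1 = star q.1 := congrArg Subtype.val h
  exact Subtype.ext (star_injective h1)

/-- conjugation of sets -/
def cs (A : Finset Pr) : Finset Pr := A.map ⟨cj, cj_inj⟩

theorem cs_inj : Function.Injective cs := Finset.map_injective _

theorem star_PA (A : Finset Pr) : star (PA A) = PA (cs A) := by
  unfold PA cs
  rw [Finset.prod_map]
  have h := map_prod (starRingEnd G) (fun p : Pr => p.1) A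
  exact h

theorem star_la (A : Finset Pr) : star (la * PA A) = ⟨0, -1⟩ * la * PA (cs A) := by
  rw [star_mul, star_PA, mul_comm]
  congr 1

theorem nm_W (i : Fin 4) (A : Finset Pr) : nm (U i * la * PA A) = 2 * NN gN A := by
  have h : nm (PA A) = NN gN A := Pool.Agent.Y678.PP.nm_prod A
  rw [Pool.Agent.Y678.PP.nm_mul, Pool.Agent.Y678.PP.nm_mul, nm_U, nm_la, h, one_mul]

theorem norm_le {D : G} {X : ℝ} : ((D.norm : ℤ) : ℝ) ≤ X ↔ (nm D : ℝ) ≤ X := by
  have h3 : (0 : ℤ) ≤ D.norm := GaussianInt.norm_nonneg D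
  have h : ((nm D : ℕ) : ℤ) = D.norm := by
    unfold nm
    omega
  have h4 : (nm D : ℝ) = ((D.norm : ℤ) : ℝ) := by
    rw [← h]
    push_cast
    rfl
  rw [h4]

theorem mem_F {X : ℝ} {A : Finset Pr} : A ∈ FF gN (X / 2) ↔ (2 * NN gN A : ℝ) ≤ X := by
  rw [Pool.Agent.Y678.PP.mem_FF Pool.Agent.Y427.PP.t_FAC]
  constructor
  · intro h
    linarith
  · intro h
    linarith

/-- the parametrization -/
def W (x : Fin 4 × Finset Pr) : G := U x.1 * la * PA x.2

theorem W_inj (h2 : SCNT2) : Function.Injective W := by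
  rintro ⟨i, A⟩ ⟨j, B⟩ h
  obtain ⟨h3, h4⟩ := h2 _ _ _ _ (U_unit i) (U_unit j) h
  rw [Prod.mk.injEq]
  exact ⟨U_inj h3, h4⟩

theorem W_le {X : ℝ} (i : Fin 4) (A : Finset Pr) :
    ((((W (i, A)).norm : ℤ)) : ℝ) ≤ X ↔ A ∈ FF gN (X / 2) := by
  rw [norm_le, mem_F]
  unfold W
  rw [nm_W]
  push_cast
  rfl

theorem Tw_eq (h1 : SCNT1) (X : ℝ) :
    Tw X = W '' ((univ ×ˢ FF gN (X / 2) : Finset (Fin 4 × Finset Pr)) : Set (Fin 4 × Finset Pr)) := by
  ext D
  constructor
  · rintro ⟨ha, hb, hc⟩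
    obtain ⟨u, A, hu, hD⟩ := (h1 D).mp ⟨ha, hb⟩
    obtain ⟨i, rfl⟩ := unit_eq u hu
    refine ⟨(i, A), ?_, hD.symm⟩
    have h3 : ((((W (i, A)).norm : ℤ)) : ℝ) ≤ X := by
      have : W (i, A) = D := hD.symm
      rw [this]
      exact hc
    rw [Finset.mem_coe, Finset.mem_product]
    exact ⟨Finset.mem_univ _, (W_le i A).mp h3⟩
  · rintro ⟨⟨i, A⟩, hm, rfl⟩
    rw [Finset.mem_coe, Finset.mem_product] at hm
    obtain ⟨ha, hb⟩ := (h1 (W (i, A))).mpr ⟨U i, A, U_unit i, rfl⟩
    exact ⟨ha, hb, (W_le i A).mpr hm.2⟩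

/-- the index of the unit -/
def ix (b : Bool × Bool) : Fin 4 := match b with
  | (false, false) => 0
  | (true, false) => 1
  | (false, true) => 3
  | (true, true) => 2

theorem ix_inj : Function.Injective ix := by
  rintro ⟨a, b⟩ ⟨c, d⟩ h
  revert h
  cases a <;> cases b <;> cases c <;> cases d <;> decide

/-- the four members of a family -/
def V (x : (Bool × Bool) × Finset Pr) : Fin 4 × Finset Pr :=
  (ix x.1, if x.1.2 then cs x.2 else x.2)

theorem V_inj : Function.Injective V := by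
  rintro ⟨⟨a, b⟩, A⟩ ⟨⟨c, d⟩, B⟩ h
  unfold V at h
  rw [Prod.mk.injEq] at h
  obtain ⟨h1, h2⟩ := h
  have h3 : (a, b) = (c, d) := ix_inj h1
  rw [Prod.mk.injEq] at h3
  obtain ⟨rfl, rfl⟩ := h3
  cases b
  · simp only [Bool.false_eq_true, if_false] at h2
    rw [h2]
  · simp only [if_true] at h2
    rw [cs_inj h2]

theorem nm_star (D : G) : (star D).norm = D.norm := Zsqrtd.norm_conj D

theorem WV (b c : Bool) (A : Finset Pr) :
    W (V ((b, c), A)) = (if b then -1 else 1) * (if c then star (la * PA A) else la * PA A) := by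
  unfold W V
  cases b <;> cases c
  · simp only [Bool.false_eq_true, if_false]
    rw [mul_assoc]
    congr 1
  · simp only [Bool.false_eq_true, if_false, if_true]
    rw [star_la, one_mul]
    congr 1
  · simp only [Bool.false_eq_true, if_false, if_true]
    rw [mul_assoc]
    congr 1
  · simp only [if_true]
    rw [star_la, ← mul_assoc]
    congr 1

/-- CNT -/
theorem t_CNT (h1 : SCNT1) (h2 : SCNT2) : SCNT := by
  classical
  intro X
  have hfin : (Tw X).Finite := by
    rw [Tw_eq h1]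
    exact (Finset.finite_toSet _).image _
  refine ⟨hfin, ?_, ?_⟩
  · rw [Tw_eq h1, Set.ncard_image_of_injective _ (W_inj h2), Set.ncard_coe_finset,
      Finset.card_product, Finset.card_univ, Fintype.card_fin]
  · intro Q T hQ1 hQ2 hT
    have h3 : (W ∘ V) '' ((univ ×ˢ ((FF gN (X / 2)).filter fun A => T A) :
        Finset ((Bool × Bool) × Finset Pr)) : Set ((Bool × Bool) × Finset Pr)) ⊆
        {D ∈ Tw X | Q D} := by
      rintro _ ⟨⟨⟨b, c⟩, A⟩, hm, rfl⟩
      rw [Finset.mem_coe, Finset.mem_product] at hm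
      have hA := (Finset.mem_filter.mp hm.2)
      have hQ : Q (la * PA A) := hT A hA.2
      have hW : (W ∘ V) ((b, c), A) =
          (if b then -1 else 1) * (if c then star (la * PA A) else la * PA A) := WV b c A
      have hn : (((la * PA A).norm : ℤ) : ℝ) ≤ X := by
        have h4 := (W_le (X := X) 0 A).mpr hA.1
        have h5 : W (0, A) = la * PA A := by
          unfold W
          rw [mul_assoc]
          exact one_mul _
        rw [h5] at h4
        exact h4
      refine ⟨?_, ?_⟩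
      · obtain ⟨ha, hb⟩ := (h1 ((W ∘ V) ((b, c), A))).mpr
          ⟨U (V ((b, c), A)).1, (V ((b, c), A)).2, U_unit _, rfl⟩
        refine ⟨ha, hb, ?_⟩
        rw [hW]
        have h6 : ((if b then -1 else 1) * (if c then star (la * PA A) else la * PA A) : G).norm =
            (la * PA A).norm := by
          rw [Zsqrtd.norm_mul]
          cases b <;> cases c <;> simp [nm_star]
        rw [h6]
        exact hn
      · show Q ((W ∘ V) ((b, c), A))
        rw [hW]
        cases b <;> cases c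
        · simpa using hQ
        · simpa using hQ2 _ hQ
        · simpa using hQ1 _ hQ
        · have h7 := hQ1 _ (hQ2 _ hQ)
          simpa using h7
    have h4 := Set.ncard_le_ncard h3 (hfin.subset fun D hD => hD.1)
    rw [Set.ncard_image_of_injective _ ((W_inj h2).comp V_inj), Set.ncard_coe_finset,
      Finset.card_product] at h4
    have h5 : (Finset.univ : Finset (Bool × Bool)).card = 4 := by decide
    rw [h5] at h4
    exact h4

end Pool.Agent.Y100.PP
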